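import Mathlib

set_option autoImplicit false

/-!
# Test ideals do not restrict to general hyperplane sections

We show that Q1 of `MP_7979aa_ag` has a negative answer in every characteristic `p > 0`, already for
`X = P^3`, `Δ = (1/p) div(F)` for a suitable form `F`, and the very ample linear system of planes.

## Definitions

For a ring `R` of characteristic `p`, an element of `Hom_R(F^e_* R, R)` is an additive map
`φ : R → R` with `φ (r ^ (p ^ e) * x) = r * φ x` (`IsCartierLinear`). The (big) test ideal of the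
pair `(Spec R, c · div(f))` is the smallest ideal `J ≠ 0` with `φ (f ^ ⌈c (p ^ e - 1)⌉ J) ⊆ J` for
all `e ≥ 0` and all `φ ∈ Hom_R(F^e_* R, R)` (`IsTestIdeal`).

The chart `x_i ≠ 0` of `X = P^3` is the affine space with the ring `k[x_0, …, x_3]/(x_i - 1)`
(`ChartX`), and the chart `x_i ≠ 0` of the plane `H : h = 0`, `h = ∑ a_j x_j`, is the affine variety
with the ring `k[x_0, …, x_3]/(x_i - 1, h)` (`ChartH`).

## The example

In the chart `x_0 = 1`, with the coordinates `s = x_1`, `y = x_2`, `z = x_3`, let `N = p ^ 2` and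

`f = ∑_{j < p²} y ^ (j / p) z ^ (j % p) (y ^ (N - j) z ^ j) ^ p + s (z ^ N) ^ p`.

(It is irreducible: it is linear in `s` and not divisible by `z`.) The monomials
`y ^ (j / p) z ^ (j % p)`, `j < p²`, and `s` are a part of a basis of `R` over `R ^ p`, so that the
test ideal of `(X, c div f)` is the ideal `(y, z) ^ N` for `c = 1/p`, and for all slightly larger `c`.
It needs `p² + 1` generators, also after the restriction to a plane `H` which is transversal to the
line `y = z = 0`. But the test ideal of a pair `(H, (1/p) div g)` on a smooth surface is locally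
generated by `p²` elements. (Explicitly: `z ^ N` is in the first ideal, not in the second.)

The numbers `c = p ^ (m - 1) / (p ^ m - 1)` with large `m` are in the interval
`1/p ≤ c < 1/p + 1/(p d)`, so there are also examples for which `(p ^ m - 1) (K_X + Δ)` is Cartier.
-/

open MvPolynomial

namespace Pool.Agent.H94.TestIdeals.GeneralPlanes

section definitions

/-- `φ` is an element of `Hom_R(F^e_* R, R)`: an additive map `R → R` with
`φ (r ^ (p ^ e) * x) = r * φ x`. -/
def IsCartierLinear (p e : ℕ) {R : Type*} [CommRing R] (φ : R → R) : Prop :=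
  (∀ x y, φ (x + y) = φ x + φ y) ∧ ∀ r x, φ (r ^ p ^ e * x) = r * φ x

/-- The ideal `J` is mapped to itself by `φ (f ^ ⌈c (p ^ e - 1)⌉ * _)`, for all `e` and all
`φ ∈ Hom_R(F^e_* R, R)`. -/
def IsStable (p : ℕ) (c : ℚ) {R : Type*} [CommRing R] (f : R) (J : Ideal R) : Prop :=
  ∀ (e : ℕ) (φ : R → R), IsCartierLinear p e φ → ∀ x ∈ J, φ (f ^ ⌈c * ((p : ℚ) ^ e - 1)⌉₊ * x) ∈ J

/-- `τ` is the (big) test ideal of the pair `(Spec R, c · div(f))`, `p` the characteristic of `R`:
the smallest nonzero ideal which is mapped to itself by `φ (f ^ ⌈c (p ^ e - 1)⌉ * _)`, for all `e` and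
all `φ ∈ Hom_R(F^e_* R, R)`. -/
def IsTestIdeal (p : ℕ) (c : ℚ) {R : Type*} [CommRing R] (f : R) (τ : Ideal R) : Prop :=
  IsLeast {J : Ideal R | J ≠ ⊥ ∧ IsStable p c f J} τ

variable (k : Type*) [Field k]

/-- The ring `k[x_0, …, x_3]/(x_i - 1)` of the chart `x_i ≠ 0` of the projective space `X = P^3`. -/
abbrev ChartX (i : Fin 4) : Type _ :=
  MvPolynomial (Fin 4) k ⧸ (Ideal.span {(X i : MvPolynomial (Fin 4) k) - 1})

/-- The ring `k[x_0, …, x_3]/(x_i - 1, ∑ a_j x_j)` of the chart `x_i ≠ 0` of the plane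
`H : ∑ a_j x_j = 0`. -/
abbrev ChartH (a : Fin 4 → k) (i : Fin 4) : Type _ :=
  MvPolynomial (Fin 4) k ⧸ (Ideal.span {(X i : MvPolynomial (Fin 4) k) - 1, ∑ j, C (a j) * X j})

/-- The restriction of functions from the chart of `X` to the chart of `H`. -/
noncomputable def restrict (a : Fin 4 → k) (i : Fin 4) : ChartX k i →+* ChartH k a i :=
  Ideal.Quotient.factor (Ideal.span_mono (by simp))

end definitions

section general

variable {p : ℕ} {R : Type*} [CommRing R]

theorem cartier_comp {e e' : ℕ} {φ ψ : R → R} (hφ : IsCartierLinear p e φ)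
    (hψ : IsCartierLinear p e' ψ) : IsCartierLinear p (e' + e) (fun x => φ (ψ x)) := by
  refine ⟨fun x y => ?_, fun r x => ?_⟩
  · simp only [hψ.1, hφ.1]
  · show φ (ψ (r ^ p ^ (e' + e) * x)) = r * φ (ψ x)
    rw [pow_add, mul_comm (p ^ e'), pow_mul, hψ.2, hφ.2]

theorem cartier_mul {e : ℕ} {φ : R → R} (hφ : IsCartierLinear p e φ) (r : R) :
    IsCartierLinear p e (fun x => φ (r * x)) := by
  refine ⟨fun x y => ?_, fun t x => ?_⟩
  · simp only [mul_add, hφ.1]
  · show φ (r * (t ^ p ^ e * x)) = t * φ (r * x)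
    rw [mul_left_comm, hφ.2]

theorem cartier_one {φ : R → R} (hφ : IsCartierLinear p 1 φ) (r x : R) :
    φ (x * r ^ p) = r * φ x := by
  have h := hφ.2 r x
  rwa [pow_one, mul_comm (r ^ p)] at h

theorem cartier_sum {e : ℕ} {φ : R → R} (hφ : IsCartierLinear p e φ) {ι : Type*}
    (s : Finset ι) (x : ι → R) : φ (∑ i ∈ s, x i) = ∑ i ∈ s, φ (x i) := by
  have h0 : φ 0 = 0 := by simpa using hφ.1 0 0
  classical
  induction s using Finset.induction_on with
  | empty => simpa using h0
  | insert a s ha ih => rw [Finset.sum_insert ha, Finset.sum_insert ha, hφ.1, ih]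

theorem ceil_zero (c : ℚ) : ⌈c * ((p : ℚ) ^ 0 - 1)⌉₊ = 0 := by simp

theorem le_ceil (hp : 1 < p) {c : ℚ} (hc : 1 / (p : ℚ) ≤ c) (e : ℕ) :
    p ^ e ≤ ⌈c * ((p : ℚ) ^ (e + 1) - 1)⌉₊ := by
  have hp' : (0 : ℚ) < p := by exact_mod_cast (by omega : 0 < p)
  have h5 : 1 ≤ p ^ e := Nat.one_le_pow _ _ (by omega)
  have h7 : (1 : ℚ) ≤ (p : ℚ) ^ (e + 1) := by exact_mod_cast Nat.one_le_pow _ _ (by omega : 0 < p)
  have h1 : (1 / (p : ℚ)) * ((p : ℚ) ^ (e + 1) - 1) = (p : ℚ) ^ e - 1 / p := by
    field_simp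
    ring
  have h6 : (1 / (p : ℚ)) * ((p : ℚ) ^ (e + 1) - 1) ≤ c * ((p : ℚ) ^ (e + 1) - 1) :=
    mul_le_mul_of_nonneg_right hc (by linarith)
  have h2 : (1 : ℚ) / p < 1 := by
    rw [div_lt_one hp']
    exact_mod_cast hp
  by_contra h
  have h8 : ⌈c * ((p : ℚ) ^ (e + 1) - 1)⌉₊ ≤ p ^ e - 1 := by omega
  have h9 := Nat.ceil_le.1 h8
  have h4 : ((p ^ e - 1 : ℕ) : ℚ) = (p : ℚ) ^ e - 1 := by
    rw [Nat.cast_sub h5]
    simp
  rw [h4] at h9
  linarith

theorem isStable_span [CharP R p] (hp : p.Prime) {c : ℚ} (hc : 1 / (p : ℚ) ≤ c) {ι : Type*}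
    (s : Finset ι) (b g : ι → R) {f : R} (hf : f = ∑ i ∈ s, b i * g i ^ p) :
    IsStable p c f (Ideal.span (g '' s)) := by
  have : Fact p.Prime := ⟨hp⟩
  have : ExpChar R p := ExpChar.prime hp
  rintro (_ | e) φ hφ x hx
  · rw [ceil_zero, pow_zero, one_mul]
    have h := hφ.2 x 1
    simp only [pow_zero, pow_one, mul_one] at h
    rw [h]
    exact Ideal.mul_mem_right _ _ hx
  · obtain ⟨t, ht⟩ := Nat.exists_eq_add_of_le (le_ceil hp.one_lt hc e)
    rw [ht, pow_add, mul_assoc]
    have h0 : f ^ p ^ e = ∑ i ∈ s, (b i * g i ^ p) ^ p ^ e := by rw [hf, sum_pow_char_pow]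
    rw [h0, Finset.sum_mul, cartier_sum hφ]
    refine Ideal.sum_mem _ fun i hi => ?_
    have h : (b i * g i ^ p) ^ p ^ e * (f ^ t * x)
        = g i ^ p ^ (e + 1) * (b i ^ p ^ e * (f ^ t * x)) := by
      rw [mul_pow, ← pow_mul, ← pow_succ']
      ring
    rw [h, hφ.2]
    exact Ideal.mul_mem_right _ _ (Ideal.subset_span ⟨i, hi, rfl⟩)

theorem isTestIdeal_span [CharP R p] (hp : p.Prime) {c : ℚ} (hc : 1 / (p : ℚ) ≤ c) {ι : Type*}
    (s : Finset ι) (b g : ι → R) {f : R}
    (hf : f = ∑ i ∈ s, b i * g i ^ p) (hne : ∃ i ∈ s, g i ≠ 0)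
    (dual : ∀ i ∈ s, ∃ φ : R → R, IsCartierLinear p 1 φ ∧ φ f = g i)
    (split : ∀ x : R, x ≠ 0 → ∃ (e : ℕ) (ψ : R → R), IsCartierLinear p e ψ ∧
      ψ (f ^ (⌈c * ((p : ℚ) ^ (e + 1) - 1)⌉₊ - p ^ e) * x) = 1) :
    IsTestIdeal p c f (Ideal.span (g '' s)) := by
  refine ⟨⟨?_, isStable_span hp hc s b g hf⟩, ?_⟩
  · obtain ⟨i, hi, h⟩ := hne
    intro h0
    have h1 : g i ∈ Ideal.span (g '' s) := Ideal.subset_span ⟨i, hi, rfl⟩
    rw [h0] at h1
    exact h h1
  · rintro J ⟨hJ, hst⟩
    obtain ⟨x, hx, hx0⟩ := Submodule.exists_mem_ne_zero_of_ne_bot hJ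
    rw [Ideal.span_le]
    rintro _ ⟨i, hi, rfl⟩
    obtain ⟨e, ψ, hψ, hψx⟩ := split x hx0
    obtain ⟨φ, hφ, hφf⟩ := dual i hi
    have h := hst (e + 1) _ (cartier_comp hφ hψ) x hx
    obtain ⟨t, ht⟩ := Nat.exists_eq_add_of_le (le_ceil hp.one_lt hc e)
    rw [ht, Nat.add_sub_cancel_left] at hψx
    rw [ht, pow_add, mul_assoc] at h
    simp only [hψ.2, hψx, mul_one, hφf] at h
    exact h

theorem IsStable.map_equiv {S : Type*} [CommRing S] (E : R ≃+* S) {c : ℚ} {f : R} {J : Ideal R}
    (h : IsStable p c f J) : IsStable p c (E f) (J.map (E : R →+* S)) := by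
  intro e φ hφ x hx
  obtain ⟨y, hy, rfl⟩ := (Ideal.mem_map_of_equiv E x).1 hx
  refine (Ideal.mem_map_of_equiv E _).2
    ⟨E.symm (φ (E f ^ ⌈c * ((p : ℚ) ^ e - 1)⌉₊ * E y)), ?_, by simp⟩
  have h1 := h e (fun t => E.symm (φ (E t))) ⟨fun a b => by simp [hφ.1], fun r t => by
    simp [hφ.2]⟩ y hy
  simpa using h1

/-- test ideals are compatible with isomorphisms -/
theorem IsTestIdeal.map_equiv {S : Type*} [CommRing S] (E : R ≃+* S) {c : ℚ} {f : R} {τ : Ideal R}
    (h : IsTestIdeal p c f τ) : IsTestIdeal p c (E f) (τ.map (E : R →+* S)) := by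
  obtain ⟨⟨h1, h2⟩, h3⟩ := h
  refine ⟨⟨?_, h2.map_equiv E⟩, ?_⟩
  · intro h0
    apply h1
    rw [eq_bot_iff]
    intro x hx
    have h4 : E x ∈ τ.map (E : R →+* S) := Ideal.mem_map_of_mem _ hx
    rw [h0] at h4
    simpa using h4
  · rintro J ⟨hJ, hst⟩
    have h4 : J.map (E.symm : S →+* R) ∈ {J : Ideal R | J ≠ ⊥ ∧ IsStable p c f J} := by
      refine ⟨?_, by simpa using hst.map_equiv E.symm⟩
      intro h0
      apply hJ
      rw [eq_bot_iff]
      intro x hx
      have h5 : E.symm x ∈ J.map (E.symm : S →+* R) := Ideal.mem_map_of_mem _ hx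
      rw [h0] at h5
      simpa using h5
    have h5 := h3 h4
    rw [Ideal.map_le_iff_le_comap]
    intro x hx
    obtain ⟨y, hy, hyx⟩ := (Ideal.mem_map_of_equiv E.symm x).1 (h5 hx)
    rw [Ideal.mem_comap, ← hyx]
    simpa using hy

end general

section polynomials

variable {σ : Type*} {k : Type*} [Field k] {p : ℕ}

/-- the map `∑ c_u x^u ↦ ∑ root (c_{q v + m}) x^v` -/
noncomputable def tr (q : ℕ) (hq : q ≠ 0) (root : k →+* k) (m : σ →₀ ℕ) (g : MvPolynomial σ k) :
    MvPolynomial σ k :=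
  AddMonoidAlgebra.ofCoeff (Finsupp.mapRange root (map_zero _)
    (Finsupp.comapDomain (fun v : σ →₀ ℕ => q • v + m) (AddMonoidAlgebra.coeff g) (by
      intro v _ w _ h
      ext i
      have := DFunLike.congr_fun h i
      simpa [hq] using this)))

theorem coeff_tr (q : ℕ) (hq : q ≠ 0) (root : k →+* k) (m : σ →₀ ℕ) (g : MvPolynomial σ k)
    (v : σ →₀ ℕ) : coeff v (tr q hq root m g) = root (coeff (q • v + m) g) := rfl

theorem monomial_pow' (q : ℕ) (u : σ →₀ ℕ) (c : k) :
    (monomial u c : MvPolynomial σ k) ^ q = monomial (q • u) (c ^ q) := by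
  rw [monomial_pow]

theorem cartier_tr [CharP k p] (hp : p.Prime) (e : ℕ) (root : k →+* k)
    (hroot : ∀ x, root (x ^ p ^ e) = x) (m : σ →₀ ℕ) (hm : ∀ i, m i < p ^ e)
    (hq : p ^ e ≠ 0) : IsCartierLinear p e (tr (σ := σ) (p ^ e) hq root m) := by
  have : Fact p.Prime := ⟨hp⟩
  have : ExpChar k p := ExpChar.prime hp
  refine ⟨fun x y => ?_, fun r x => ?_⟩
  · ext v
    simp only [coeff_tr, coeff_add, map_add]
  · induction r using MvPolynomial.induction_on' with
    | monomial u c =>
      classical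
      ext v
      rw [monomial_pow', coeff_tr, coeff_monomial_mul', coeff_monomial_mul']
      by_cases h : u ≤ v
      · have h1 : p ^ e • u ≤ p ^ e • v + m := by
          intro i
          have h2 := h i
          simp only [Finsupp.coe_add, Finsupp.coe_smul, Pi.add_apply, Pi.smul_apply, smul_eq_mul]
          have h3 : p ^ e * u i ≤ p ^ e * v i := Nat.mul_le_mul_left _ h2
          omega
        rw [if_pos h, if_pos h1, map_mul, hroot, coeff_tr]
        congr 3
        ext i
        have h2 := h i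
        simp only [Finsupp.coe_add, Finsupp.coe_tsub, Finsupp.coe_smul, Pi.add_apply, Pi.sub_apply,
          Pi.smul_apply, smul_eq_mul]
        have h3 : p ^ e * u i ≤ p ^ e * v i := Nat.mul_le_mul_left _ h2
        rw [Nat.mul_sub]
        omega
      · have h1 : ¬ p ^ e • u ≤ p ^ e • v + m := by
          intro h2
          apply h
          intro i
          have h3 := h2 i
          have h4 := hm i
          simp only [Finsupp.coe_add, Finsupp.coe_smul, Pi.add_apply, Pi.smul_apply,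
            smul_eq_mul] at h3
          by_contra h5
          have h6 : v i + 1 ≤ u i := by omega
          have h7 : p ^ e * (v i + 1) ≤ p ^ e * u i := Nat.mul_le_mul_left _ h6
          rw [Nat.mul_add, Nat.mul_one] at h7
          omega
        rw [if_neg h, if_neg h1, map_zero]
    | add a b ha hb =>
      rw [add_pow_expChar_pow, add_mul, add_mul, ← ha, ← hb]
      ext v
      simp only [coeff_tr, coeff_add, map_add]

theorem tr_monomial_self {q : ℕ} (hq : q ≠ 0) (root : k →+* k) {m : σ →₀ ℕ}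
    (hm : ∀ i, m i < q) : tr q hq root m (monomial m 1) = 1 := by
  classical
  ext v
  rw [coeff_tr, coeff_monomial]
  by_cases hv : v = 0
  · subst hv
    simp
  · have h1 : m ≠ q • v + m := by
      intro h2
      obtain ⟨i, hi⟩ := DFunLike.ne_iff.1 hv
      have h3 := DFunLike.congr_fun h2 i
      have h4 := hm i
      simp only [Finsupp.coe_add, Finsupp.coe_smul, Pi.add_apply, Pi.smul_apply, smul_eq_mul,
        Finsupp.coe_zero, Pi.zero_apply] at h3 hi
      have h5 : q * 1 ≤ q * v i := Nat.mul_le_mul_left _ (by omega)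
      omega
    rw [if_neg h1, map_zero, coeff_one, if_neg (Ne.symm hv)]

theorem tr_monomial_ne {q : ℕ} (hq : q ≠ 0) (root : k →+* k) {m m' : σ →₀ ℕ}
    (hm' : ∀ i, m' i < q) (h : m' ≠ m) : tr q hq root m (monomial m' 1) = 0 := by
  classical
  ext v
  rw [coeff_tr, coeff_monomial]
  have h1 : m' ≠ q • v + m := by
    by_cases hv : v = 0
    · subst hv
      simpa using h
    · intro h2
      obtain ⟨i, hi⟩ := DFunLike.ne_iff.1 hv
      have h3 := DFunLike.congr_fun h2 i
      have h4 := hm' i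
      simp only [Finsupp.coe_add, Finsupp.coe_smul, Pi.add_apply, Pi.smul_apply, smul_eq_mul,
        Finsupp.coe_zero, Pi.zero_apply] at h3 hi
      have h5 : q * 1 ≤ q * v i := Nat.mul_le_mul_left _ (by omega)
      omega
  rw [if_neg h1, map_zero, coeff_zero]

/-- the `q`-th root of a perfect field -/
noncomputable def rt (k : Type*) [Field k] (p : ℕ) [ExpChar k p] [PerfectRing k p] (e : ℕ) :
    k →+* k := ((iterateFrobeniusEquiv k p e).symm : k →+* k)

theorem rt_pow [ExpChar k p] [PerfectRing k p] (e : ℕ) (x : k) : rt k p e (x ^ p ^ e) = x := by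
  have h := (iterateFrobeniusEquiv k p e).symm_apply_apply x
  rw [iterateFrobeniusEquiv_def] at h
  exact h

theorem pow_rt [ExpChar k p] [PerfectRing k p] (e : ℕ) (x : k) : rt k p e x ^ p ^ e = x := by
  have h := (iterateFrobeniusEquiv k p e).apply_symm_apply x
  rw [iterateFrobeniusEquiv_def] at h
  exact h

theorem split_of_degree_lt [CharP k p] (hp : p.Prime) [ExpChar k p] [PerfectRing k p] {e : ℕ}
    {x : MvPolynomial σ k} (hx : x ≠ 0) (hd : x.totalDegree < p ^ e) :
    ∃ ψ : MvPolynomial σ k → MvPolynomial σ k, IsCartierLinear p e ψ ∧ ψ x = 1 := by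
  classical
  obtain ⟨u, hu⟩ := ne_zero_iff.1 hx
  have hq : p ^ e ≠ 0 := (pow_pos hp.pos e).ne'
  have hdeg : ∀ w : σ →₀ ℕ, coeff w x ≠ 0 → ∀ i, w i < p ^ e := by
    intro w hw i
    have h1 : w.sum (fun _ n => n) ≤ x.totalDegree := le_totalDegree (mem_support_iff.2 hw)
    have h2 : w i ≤ w.sum (fun _ n => n) := by
      by_cases hi : i ∈ w.support
      · exact Finset.single_le_sum (f := fun i => w i) (fun _ _ => Nat.zero_le _) hi
      · rw [Finsupp.notMem_support_iff.1 hi]
        exact Nat.zero_le _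
    omega
  refine ⟨_, cartier_mul (cartier_tr hp e (rt k p e) (rt_pow e) u (hdeg u hu) hq)
    (C (coeff u x)⁻¹), ?_⟩
  ext v
  rw [coeff_tr, coeff_C_mul]
  by_cases hv : v = 0
  · subst hv
    simp [inv_mul_cancel₀ hu]
  · have h1 : coeff (p ^ e • v + u) x = 0 := by
      by_contra h2
      obtain ⟨i, hi⟩ := DFunLike.ne_iff.1 hv
      have h3 := hdeg _ h2 i
      simp only [Finsupp.coe_add, Finsupp.coe_smul, Pi.add_apply, Pi.smul_apply, smul_eq_mul,
        Finsupp.coe_zero, Pi.zero_apply] at h3 hi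
      have h5 : p ^ e * 1 ≤ p ^ e * v i := Nat.mul_le_mul_left _ (by omega)
      omega
    rw [h1, mul_zero, map_zero, coeff_one, if_neg (Ne.symm hv)]

/-- the test ideal of `∑ x^(m_i) g_i^p`, with exponent slightly larger than `1/p` -/
theorem poly_testIdeal [CharP k p] (hp : p.Prime) [ExpChar k p] [PerfectRing k p] {c : ℚ}
    (hc : 1 / (p : ℚ) ≤ c) {ι : Type*} (s : Finset ι) (m : ι → σ →₀ ℕ)
    (hinj : ∀ i ∈ s, ∀ j ∈ s, m i = m j → i = j) (hm : ∀ i ∈ s, ∀ t, m i t < p)
    (g : ι → MvPolynomial σ k) {f : MvPolynomial σ k}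
    (hf : f = ∑ i ∈ s, monomial (m i) 1 * g i ^ p) (hne : ∃ i ∈ s, g i ≠ 0) {D : ℕ} (hD : 0 < D)
    (hfD : f.totalDegree ≤ D) (hc2 : c < 1 / p + 1 / (p * D)) :
    f ≠ 0 ∧ IsTestIdeal p c f (Ideal.span (g '' s)) := by
  have hp0 : (0 : ℚ) < p := by exact_mod_cast hp.pos
  have hD0 : (0 : ℚ) < D := by exact_mod_cast hD
  have dual : ∀ i ∈ s, ∃ φ : MvPolynomial σ k → MvPolynomial σ k, IsCartierLinear p 1 φ ∧
      φ f = g i := by
    intro i hi
    have hq : p ^ 1 ≠ 0 := by rw [pow_one]; exact hp.ne_zero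
    have hφ := cartier_tr hp 1 (rt k p 1) (rt_pow 1) (m i) (by simpa using hm i hi) hq
    refine ⟨_, hφ, ?_⟩
    rw [hf, cartier_sum hφ, Finset.sum_eq_single i]
    · rw [cartier_one hφ, tr_monomial_self hq (rt k p 1) (m := m i) (by simpa using hm i hi),
        mul_one]
    · intro j hj hji
      rw [cartier_one hφ, tr_monomial_ne hq (rt k p 1) (m := m i) (m' := m j)
        (by simpa using hm j hj) (fun h => hji (hinj j hj i hi h)), mul_zero]
    · intro h
      exact absurd hi h
  have hf0 : f ≠ 0 := by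
    obtain ⟨i, hi, h⟩ := hne
    obtain ⟨φ, hφ, h1⟩ := dual i hi
    rintro rfl
    apply h
    rw [← h1]
    simpa using hφ.1 0 0
  refine ⟨hf0, isTestIdeal_span hp hc s (fun i => monomial (m i) 1) g hf hne dual ?_⟩
  intro x hx
  have hδ : 0 < 1 - (c * p - 1) * D := by
    have h1 : c * p < 1 + 1 / D := by
      calc c * p < (1 / p + 1 / (p * D)) * p := mul_lt_mul_of_pos_right hc2 hp0
        _ = 1 + 1 / D := by field_simp
    have h2 : (c * p - 1) * D < 1 / D * D := mul_lt_mul_of_pos_right (by linarith) hD0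
    rw [one_div, inv_mul_cancel₀ hD0.ne'] at h2
    linarith
  obtain ⟨e, he⟩ := pow_unbounded_of_one_lt ((D + x.totalDegree : ℚ) / (1 - (c * p - 1) * D))
    (by exact_mod_cast hp.one_lt : (1 : ℚ) < p)
  rw [div_lt_iff₀ hδ] at he
  set r := ⌈c * ((p : ℚ) ^ (e + 1) - 1)⌉₊ - p ^ e with hr
  have hxr : f ^ r * x ≠ 0 := mul_ne_zero (pow_ne_zero _ hf0) hx
  obtain ⟨ψ, h1, h2⟩ := split_of_degree_lt hp hxr (e := e) (by
    have h1 : (f ^ r * x).totalDegree ≤ r * D + x.totalDegree :=
      (totalDegree_mul _ _).trans (Nat.add_le_add_right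
        ((totalDegree_pow _ _).trans (Nat.mul_le_mul_left _ hfD)) _)
    refine lt_of_le_of_lt h1 ?_
    have h7 : (1 : ℚ) ≤ (p : ℚ) ^ (e + 1) := by exact_mod_cast Nat.one_le_pow _ _ hp.pos
    have hc0 : 0 ≤ c := le_trans (by positivity) hc
    have h3 : (⌈c * ((p : ℚ) ^ (e + 1) - 1)⌉₊ : ℚ) < c * ((p : ℚ) ^ (e + 1) - 1) + 1 :=
      Nat.ceil_lt_add_one (mul_nonneg hc0 (by linarith))
    have h4 : (r : ℚ) = ⌈c * ((p : ℚ) ^ (e + 1) - 1)⌉₊ - (p : ℚ) ^ e := by
      rw [hr, Nat.cast_sub (le_ceil hp.one_lt hc e)]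
      push_cast
      rfl
    have h5 : (r : ℚ) ≤ (c * p - 1) * p ^ e + 1 := by
      have h6 : c * ((p : ℚ) ^ (e + 1) - 1) + 1 - p ^ e = (c * p - 1) * p ^ e + 1 - c := by
        rw [pow_succ]
        ring
      linarith
    have h6 : (r : ℚ) * D + x.totalDegree < p ^ e := by
      have h8 : (r : ℚ) * D ≤ ((c * p - 1) * p ^ e + 1) * D :=
        mul_le_mul_of_nonneg_right h5 hD0.le
      nlinarith
    exact_mod_cast h6)
  exact ⟨e, ψ, h1, h2⟩

end polynomials

section example_

variable (k : Type*) [Field k] (p : ℕ)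

/-- the exponent of `y ^ (j / p) z ^ (j % p)`; `u = (s, y, z)` or `u = (y, z)` -/
noncomputable def ex {σ : Type*} (Y Z : σ) (p j : ℕ) : σ →₀ ℕ :=
  Finsupp.single Y (j / p) + Finsupp.single Z (j % p)

theorem ex_inj {σ : Type*} {Y Z : σ} (h : Y ≠ Z) {p : ℕ} {i j : ℕ}
    (hij : ex Y Z p i = ex Y Z p j) : i = j := by
  have h1 := DFunLike.congr_fun hij Y
  have h2 := DFunLike.congr_fun hij Z
  simp only [ex, Finsupp.coe_add, Pi.add_apply, Finsupp.single_eq_same,
    Finsupp.single_eq_of_ne h, Finsupp.single_eq_of_ne h.symm, add_zero, zero_add] at h1 h2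
  rw [← Nat.div_add_mod i p, ← Nat.div_add_mod j p, h1, h2]

theorem ex_lt {σ : Type*} {Y Z : σ} (h : Y ≠ Z) {p : ℕ} (hp : 0 < p) {j : ℕ} (hj : j < p ^ 2)
    (t : σ) : ex Y Z p j t < p := by
  classical
  have h1 : j / p < p := by
    rw [Nat.div_lt_iff_lt_mul hp]
    calc j < p ^ 2 := hj
      _ = p * p := by ring
  have h2 : j % p < p := Nat.mod_lt _ hp
  simp only [ex, Finsupp.coe_add, Pi.add_apply, Finsupp.single_apply]
  split_ifs with h3 h4 h4
  · exact absurd (h3.trans h4.symm) h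
  · omega
  · omega
  · omega

theorem monomial_ex {σ : Type*} (Y Z : σ) (j : ℕ) :
    (monomial (ex Y Z p j) 1 : MvPolynomial σ k) = X Y ^ (j / p) * X Z ^ (j % p) := by
  rw [ex, ← mul_one (1 : k), ← monomial_mul, ← X_pow_eq_monomial, ← X_pow_eq_monomial]

/-- a presentation of a polynomial ring as a quotient of a polynomial ring -/
noncomputable def quotEquiv {ρ σ : Type*} {I : Ideal (MvPolynomial ρ k)}
    (α : MvPolynomial ρ k →ₐ[k] MvPolynomial σ k) (v : σ → ρ) (h0 : ∀ x ∈ I, α x = 0)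
    (h1 : ∀ i, aeval (fun t => Ideal.Quotient.mk I (X (v t))) (α (X i)) = Ideal.Quotient.mk I (X i))
    (h2 : ∀ t, α (X (v t)) = X t) : (MvPolynomial ρ k ⧸ I) ≃ₐ[k] MvPolynomial σ k :=
  AlgEquiv.ofAlgHom (Ideal.Quotient.liftₐ I α h0)
    (aeval (R := k) (fun t => Ideal.Quotient.mk I (X (v t))))
    (by
      apply MvPolynomial.algHom_ext
      intro t
      rw [AlgHom.comp_apply, aeval_X, AlgHom.id_apply, ← h2]
      exact Ideal.Quotient.lift_mk I _ h0)
    (by
      apply Ideal.Quotient.algHom_ext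
      apply MvPolynomial.algHom_ext
      intro i
      rw [AlgHom.comp_apply, AlgHom.comp_apply, AlgHom.comp_apply, AlgHom.id_apply]
      exact h1 i)

variable {k} in
theorem quotEquiv_mk {ρ σ : Type*} {I : Ideal (MvPolynomial ρ k)}
    (α : MvPolynomial ρ k →ₐ[k] MvPolynomial σ k) (v : σ → ρ) (h0 : ∀ x ∈ I, α x = 0)
    (h1 : ∀ i, aeval (fun t => Ideal.Quotient.mk I (X (v t))) (α (X i)) = Ideal.Quotient.mk I (X i))
    (h2 : ∀ t, α (X (v t)) = X t) (x : MvPolynomial ρ k) :
    quotEquiv k α v h0 h1 h2 (Ideal.Quotient.mk I x) = α x := rfl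

/-- the map `x_0 ↦ 1`, `x_1, x_2, x_3 ↦ s, y, z` -/
noncomputable def αX : MvPolynomial (Fin 4) k →ₐ[k] MvPolynomial (Fin 3) k :=
  aeval ![1, X 0, X 1, X 2]

/-- the chart of `P^3` is the affine space -/
noncomputable def equivX : ChartX k 0 ≃ₐ[k] MvPolynomial (Fin 3) k :=
  quotEquiv k (αX k) ![1, 2, 3]
    (by
      intro x hx
      obtain ⟨y, rfl⟩ := Ideal.mem_span_singleton.1 hx
      simp [αX])
    (by
      intro i
      fin_cases i
      · have h : (1 : ChartX k 0) = Ideal.Quotient.mk _ (X 0) := by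
          rw [← map_one (Ideal.Quotient.mk _), eq_comm, Ideal.Quotient.mk_eq_mk_iff_sub_mem]
          exact Ideal.subset_span rfl
        simpa [αX] using h
      · simp [αX]
      · simp [αX]
      · simp [αX])
    (by
      intro t
      fin_cases t <;> simp [αX])

/-- the linear function `s` on the plane -/
noncomputable def ell (a : Fin 4 → k) : MvPolynomial (Fin 2) k :=
  C (-a 0 / a 1) + C (-a 2 / a 1) * X 0 + C (-a 3 / a 1) * X 1

/-- the map `x_0 ↦ 1`, `x_1 ↦ s`, `x_2, x_3 ↦ y, z` -/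
noncomputable def αH (a : Fin 4 → k) : MvPolynomial (Fin 4) k →ₐ[k] MvPolynomial (Fin 2) k :=
  aeval ![1, ell k a, X 0, X 1]

/-- the chart of the plane is the affine plane -/
noncomputable def equivH (a : Fin 4 → k) (ha : a 1 ≠ 0) : ChartH k a 0 ≃ₐ[k] MvPolynomial (Fin 2) k :=
  quotEquiv k (αH k a) ![2, 3]
    (by
      intro x hx
      have h : Ideal.span {(X 0 : MvPolynomial (Fin 4) k) - 1, ∑ j, C (a j) * X j} ≤
          RingHom.ker (αH k a) := by
        rw [Ideal.span_le]
        rintro y (rfl | rfl)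
        · simp [αH, RingHom.mem_ker]
        · simp only [SetLike.mem_coe, RingHom.mem_ker, αH, Fin.sum_univ_four, map_add, map_mul,
            aeval_X, ell, algHom_C, algebraMap_eq]
          simp only [Matrix.cons_val_zero, Matrix.cons_val_one, Matrix.cons_val]
          have e0 : (C (a 1) : MvPolynomial (Fin 2) k) * C (-a 0 / a 1) = - C (a 0) := by
            rw [← C_mul, ← C_neg]
            congr 1
            field_simp
          have e2 : (C (a 1) : MvPolynomial (Fin 2) k) * C (-a 2 / a 1) = - C (a 2) := by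
            rw [← C_mul, ← C_neg]
            congr 1
            field_simp
          have e3 : (C (a 1) : MvPolynomial (Fin 2) k) * C (-a 3 / a 1) = - C (a 3) := by
            rw [← C_mul, ← C_neg]
            congr 1
            field_simp
          linear_combination e0 + X 0 * e2 + X 1 * e3
      exact h hx)
    (by
      have h0 : Ideal.Quotient.mk (Ideal.span {(X 0 : MvPolynomial (Fin 4) k) - 1,
          ∑ j, C (a j) * X j}) (X 0) = 1 := by
        rw [← map_one (Ideal.Quotient.mk _), Ideal.Quotient.mk_eq_mk_iff_sub_mem]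
        exact Ideal.subset_span (Or.inl rfl)
      intro i
      fin_cases i
      · simpa [αH] using h0.symm
      · have h1 : Ideal.Quotient.mk (Ideal.span {(X 0 : MvPolynomial (Fin 4) k) - 1,
          ∑ j, C (a j) * X j}) (∑ j, C (a j) * X j) = 0 :=
          Ideal.Quotient.eq_zero_iff_mem.2 (Ideal.subset_span (Or.inr rfl))
        simp only [Fin.sum_univ_four, map_add, map_mul, h0, mul_one] at h1
        simp only [αH, Fin.mk_one, aeval_X, Matrix.cons_val_one, Matrix.cons_val_zero, ell, map_add,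
          map_mul, algHom_C]
        have e : ∀ r : k, algebraMap k (ChartH k a 0) r = Ideal.Quotient.mk _ (C r) := fun r => rfl
        simp only [e]
        have e0 : ∀ r : k, (Ideal.Quotient.mk (Ideal.span {(X 0 : MvPolynomial (Fin 4) k) - 1,
            ∑ j, C (a j) * X j}) (C (-r / a 1))) = - (Ideal.Quotient.mk _ (C (1 / a 1)))
              * (Ideal.Quotient.mk _ (C r)) := by
          intro r
          rw [← map_neg, ← map_mul, ← C_neg, ← C_mul]
          congr 2
          field_simp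
        have e1 : (Ideal.Quotient.mk (Ideal.span {(X 0 : MvPolynomial (Fin 4) k) - 1,
            ∑ j, C (a j) * X j}) (C (1 / a 1))) * (Ideal.Quotient.mk _ (C (a 1))) = 1 := by
          rw [← map_mul, ← C_mul, one_div, inv_mul_cancel₀ ha, C_1, map_one]
        rw [e0, e0, e0]
        linear_combination (Ideal.Quotient.mk (Ideal.span {(X 0 : MvPolynomial (Fin 4) k) - 1,
            ∑ j, C (a j) * X j}) (X 1)) * e1 - (Ideal.Quotient.mk (Ideal.span
            {(X 0 : MvPolynomial (Fin 4) k) - 1, ∑ j, C (a j) * X j}) (C (1 / a 1))) * h1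
      · simp [αH]
      · simp [αH])
    (by
      intro t
      fin_cases t <;> simp [αH])

/-- the form `F` -/
noncomputable def formF : MvPolynomial (Fin 4) k :=
  ∑ j ∈ Finset.range (p ^ 2), X 0 ^ (2 * (p - 1) - j / p - j % p) * (X 2 ^ (j / p) * X 3 ^ (j % p)) *
    (X 2 ^ (p ^ 2 - j) * X 3 ^ j) ^ p + X 0 ^ (2 * (p - 1) - 1) * X 1 * (X 3 ^ p ^ 2) ^ p

theorem formF_hom (hp : 1 < p) : (formF k p).IsHomogeneous (2 * (p - 1) + p ^ 2 * p) := by
  refine IsHomogeneous.add (IsHomogeneous.sum _ _ _ fun j hj => ?_) ?_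
  · rw [Finset.mem_range] at hj
    have h1 : j / p < p := by
      rw [Nat.div_lt_iff_lt_mul (by omega)]
      calc j < p ^ 2 := hj
        _ = p * p := by ring
    have h2 : j % p < p := Nat.mod_lt _ (by omega)
    have h3 := ((isHomogeneous_X_pow (R := k) (0 : Fin 4) (2 * (p - 1) - j / p - j % p)).mul
      ((isHomogeneous_X_pow (R := k) (2 : Fin 4) (j / p)).mul
        (isHomogeneous_X_pow (R := k) (3 : Fin 4) (j % p)))).mul
      (((isHomogeneous_X_pow (R := k) (2 : Fin 4) (p ^ 2 - j)).mul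
        (isHomogeneous_X_pow (R := k) (3 : Fin 4) j)).pow p)
    have h4 : 2 * (p - 1) - j / p - j % p + (j / p + j % p) + (p ^ 2 - j + j) * p
        = 2 * (p - 1) + p ^ 2 * p := by
      rw [Nat.sub_add_cancel hj.le]
      omega
    rw [← h4]
    exact h3
  · have h3 := ((isHomogeneous_X_pow (R := k) (0 : Fin 4) (2 * (p - 1) - 1)).mul
      (isHomogeneous_X k (1 : Fin 4))).mul ((isHomogeneous_X_pow (R := k) (3 : Fin 4) (p ^ 2)).pow p)
    have h4 : 2 * (p - 1) - 1 + 1 + p ^ 2 * p = 2 * (p - 1) + p ^ 2 * p := by omega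
    rw [← h4]
    exact h3

/-- the generators of the test ideal of the space -/
noncomputable def genX (j : ℕ) : MvPolynomial (Fin 3) k := X 1 ^ (p ^ 2 - j) * X 2 ^ j

/-- the basis elements -/
noncomputable def mX (j : ℕ) : Fin 3 →₀ ℕ :=
  if j < p ^ 2 then ex 1 2 p j else Finsupp.single 0 1

theorem αX_formF : αX k (formF k p) =
    ∑ j ∈ Finset.range (p ^ 2 + 1), monomial (mX p j) 1 * genX k p j ^ p := by
  rw [Finset.sum_range_succ, formF, map_add, map_sum]
  congr 1
  · refine Finset.sum_congr rfl fun j hj => ?_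
    rw [Finset.mem_range] at hj
    rw [mX, if_pos hj, monomial_ex, genX]
    simp [αX]
  · rw [mX, if_neg (lt_irrefl _), genX, Nat.sub_self, pow_zero, one_mul, ← X]
    simp [αX]

/-- the coefficients on the plane -/
noncomputable def cf [ExpChar k p] [PerfectRing k p] (a : Fin 4 → k) (j : ℕ) : k :=
  if j = 0 then rt k p 1 (-a 0 / a 1) else if j = p then rt k p 1 (-a 2 / a 1) else
    if j = 1 then rt k p 1 (-a 3 / a 1) else 0

/-- the generators of the test ideal of the plane -/
noncomputable def genH [ExpChar k p] [PerfectRing k p] (a : Fin 4 → k) (j : ℕ) :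
    MvPolynomial (Fin 2) k := X 0 ^ (p ^ 2 - j) * X 1 ^ j + C (cf k p a j) * X 1 ^ p ^ 2

theorem αH_formF (hp : p.Prime) [CharP k p] [ExpChar k p] [PerfectRing k p] (a : Fin 4 → k) :
    αH k a (formF k p) =
      ∑ j ∈ Finset.range (p ^ 2), monomial (ex 0 1 p j) 1 * genH k p a j ^ p := by
  have : Fact p.Prime := ⟨hp⟩
  have h1 : ∀ j ∈ Finset.range (p ^ 2), monomial (ex 0 1 p j) 1 * genH k p a j ^ p =
      αH k a (X 0 ^ (2 * (p - 1) - j / p - j % p) * (X 2 ^ (j / p) * X 3 ^ (j % p)) *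
        (X 2 ^ (p ^ 2 - j) * X 3 ^ j) ^ p) +
      monomial (ex 0 1 p j) 1 * C (cf k p a j ^ p) * (X 1 ^ p ^ 2) ^ p := by
    intro j hj
    rw [genH, add_pow_char, monomial_ex, mul_add]
    congr 1
    · simp [αH]
    · rw [mul_pow, C_pow]
      ring
  rw [Finset.sum_congr rfl h1, Finset.sum_add_distrib, formF, map_add, map_sum]
  congr 1
  rw [← Finset.sum_mul]
  have h2 : αH k a (X 0 ^ (2 * (p - 1) - 1) * X 1 * (X 3 ^ p ^ 2) ^ p)
      = ell k a * (X 1 ^ p ^ 2) ^ p := by
    simp [αH]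
  rw [h2]
  congr 1
  have hp1 := hp.one_lt
  have hlt : ∀ j ∈ ({0, p, 1} : Finset ℕ), j ∈ Finset.range (p ^ 2) := by
    intro j hj
    rw [Finset.mem_range]
    simp only [Finset.mem_insert, Finset.mem_singleton] at hj
    have : p ^ 2 = p * p := by ring
    rcases hj with rfl | rfl | rfl <;> nlinarith
  rw [← Finset.sum_subset (s₁ := ({0, p, 1} : Finset ℕ)) hlt]
  · have e0 : ∀ x : k, rt k p 1 x ^ p = x := by
      intro x
      have := pow_rt (k := k) (p := p) 1 x
      rwa [pow_one] at this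
    rw [Finset.sum_insert, Finset.sum_insert, Finset.sum_singleton, monomial_ex, monomial_ex,
      monomial_ex, Nat.zero_div, Nat.zero_mod, Nat.div_self hp.pos, Nat.mod_self,
      Nat.div_eq_of_lt hp1, Nat.mod_eq_of_lt hp1]
    · rw [cf, cf, cf, if_pos rfl, if_neg hp.ne_zero, if_pos rfl, if_neg one_ne_zero,
        if_neg hp1.ne, if_pos rfl, e0, e0, e0, ell]
      ring
    · simp only [Finset.mem_singleton]
      omega
    · simp only [Finset.mem_insert, Finset.mem_singleton]
      omega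
  · intro j _ hj
    simp only [Finset.mem_insert, Finset.mem_singleton, not_or] at hj
    rw [cf, if_neg hj.1, if_neg hj.2.1, if_neg hj.2.2, zero_pow hp.ne_zero, C_0, mul_zero]

/-- exponents of the monomials of degree `N` -/
noncomputable def bi (N j : ℕ) : Fin 2 →₀ ℕ := Finsupp.single 0 (N - j) + Finsupp.single 1 j

theorem X_bi (N j : ℕ) : (X 0 ^ (N - j) * X 1 ^ j : MvPolynomial (Fin 2) k) = monomial (bi N j) 1 := by
  rw [bi, ← mul_one (1 : k), ← monomial_mul, ← X_pow_eq_monomial, ← X_pow_eq_monomial]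

theorem bi_inj {N i j : ℕ} (h : bi N i = bi N j) : i = j := by
  have h1 := DFunLike.congr_fun h 1
  simpa [bi] using h1

theorem degree_bi {N j : ℕ} (hj : j ≤ N) : (bi N j).degree = N := by
  rw [Finsupp.degree_eq_sum, Fin.sum_univ_two]
  simp only [bi, Finsupp.coe_add, Pi.add_apply, Finsupp.single_apply]
  simp
  omega

/-- polynomials of order at least `N` whose part of degree `N` is killed by the functional
`∑ b_j y^(N-j) z^j ↦ b_N - ∑ c_j b_j` -/
noncomputable def idealQ (N : ℕ) (c : ℕ → k) : Ideal (MvPolynomial (Fin 2) k) where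
  carrier := {h | (∀ v : Fin 2 →₀ ℕ, v.degree < N → coeff v h = 0) ∧
    coeff (bi N N) h = ∑ j ∈ Finset.range N, c j * coeff (bi N j) h}
  add_mem' := by
    rintro x y ⟨h1, h2⟩ ⟨h3, h4⟩
    refine ⟨fun v hv => by rw [coeff_add, h1 v hv, h3 v hv, add_zero], ?_⟩
    rw [coeff_add, h2, h4, ← Finset.sum_add_distrib]
    exact Finset.sum_congr rfl fun j _ => by rw [coeff_add, mul_add]
  zero_mem' := by
    refine ⟨fun v _ => coeff_zero v, by simp⟩
  smul_mem' := by
    classical
    rintro r x ⟨h1, h2⟩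
    have key : ∀ v : Fin 2 →₀ ℕ, v.degree ≤ N → coeff v (r * x) = coeff 0 r * coeff v x := by
      intro v hv
      rw [coeff_mul, Finset.sum_eq_single ((0 : Fin 2 →₀ ℕ), v)]
      · rintro ⟨s, t⟩ hst hne
        rw [Finset.HasAntidiagonal.mem_antidiagonal] at hst
        simp only at hst ⊢
        have hs : s ≠ 0 := by
          rintro rfl
          apply hne
          rw [zero_add] at hst
          rw [hst]
        have h3 : s.degree ≠ 0 := by
          rw [Ne, Finsupp.degree_eq_zero_iff]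
          exact hs
        have h4 : s.degree + t.degree = v.degree := by rw [← map_add, hst]
        rw [h1 t (by omega), mul_zero]
      · intro h
        exact absurd (Finset.HasAntidiagonal.mem_antidiagonal.2 (zero_add v)) h
    refine ⟨fun v hv => ?_, ?_⟩
    · rw [smul_eq_mul, key v hv.le, h1 v hv, mul_zero]
    · rw [smul_eq_mul, key _ (degree_bi le_rfl).le, h2, Finset.mul_sum]
      refine Finset.sum_congr rfl fun j hj => ?_
      rw [key _ (degree_bi (Finset.mem_range.1 hj).le).le]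
      ring

theorem z_notMem (N : ℕ) (c : ℕ → k) : (X 1 ^ N : MvPolynomial (Fin 2) k) ∉ idealQ k N c := by
  classical
  rintro ⟨-, h⟩
  have h1 : (X 1 ^ N : MvPolynomial (Fin 2) k) = monomial (bi N N) 1 := by
    rw [← X_bi]
    simp
  rw [h1, coeff_monomial, if_pos rfl, Finset.sum_eq_zero] at h
  · exact one_ne_zero h
  · intro j hj
    rw [coeff_monomial, if_neg, mul_zero]
    intro h2
    have := bi_inj h2
    rw [Finset.mem_range] at hj
    omega

theorem gen_mem (N : ℕ) (c : ℕ → k) {i : ℕ} (hi : i < N) :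
    (X 0 ^ (N - i) * X 1 ^ i + C (c i) * X 1 ^ N : MvPolynomial (Fin 2) k) ∈ idealQ k N c := by
  classical
  have h1 : (X 1 ^ N : MvPolynomial (Fin 2) k) = monomial (bi N N) 1 := by
    rw [← X_bi]
    simp
  rw [h1, X_bi]
  refine ⟨fun v hv => ?_, ?_⟩
  · rw [coeff_add, coeff_C_mul, coeff_monomial, coeff_monomial, if_neg, if_neg, mul_zero, add_zero]
    · rintro rfl
      rw [degree_bi le_rfl] at hv
      exact lt_irrefl _ hv
    · rintro rfl
      rw [degree_bi hi.le] at hv
      exact lt_irrefl _ hv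
  · rw [Finset.sum_eq_single i]
    · rw [coeff_add, coeff_C_mul, coeff_monomial, coeff_monomial, if_neg, if_pos rfl, coeff_add,
        coeff_C_mul, coeff_monomial, coeff_monomial, if_pos rfl, if_neg]
      · ring
      · intro h2
        have := bi_inj h2
        omega
      · intro h2
        have := bi_inj h2
        omega
    · intro j hj hji
      rw [Finset.mem_range] at hj
      rw [coeff_add, coeff_C_mul, coeff_monomial, coeff_monomial, if_neg, if_neg]
      · ring
      · intro h2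
        have := bi_inj h2
        omega
      · intro h2
        exact hji (bi_inj h2).symm
    · intro h
      exact absurd (Finset.mem_range.2 hi) h

theorem totalDegree_aeval_le {ρ σ : Type*} (v : ρ → MvPolynomial σ k)
    (hv : ∀ i, (v i).totalDegree ≤ 1) (f : MvPolynomial ρ k) :
    (aeval v f : MvPolynomial σ k).totalDegree ≤ f.totalDegree := by
  rw [aeval_def, eval₂_eq]
  refine totalDegree_finsetSum_le fun u hu => ?_
  refine (totalDegree_mul _ _).trans ?_
  rw [algebraMap_eq, totalDegree_C, zero_add]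
  refine (totalDegree_finsetProd _ _).trans ?_
  refine le_trans (Finset.sum_le_sum fun i _ => (totalDegree_pow _ _).trans
    (Nat.mul_le_mul_left _ (hv i))) ?_
  simp only [mul_one]
  exact le_totalDegree hu

theorem totalDegree_ell (a : Fin 4 → k) : (ell k a).totalDegree ≤ 1 := by
  unfold ell
  refine (totalDegree_add _ _).trans (max_le ((totalDegree_add _ _).trans (max_le ?_ ?_)) ?_)
  · rw [totalDegree_C]
    exact Nat.zero_le _
  · refine (totalDegree_mul _ _).trans ?_
    rw [totalDegree_C, totalDegree_X]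
  · refine (totalDegree_mul _ _).trans ?_
    rw [totalDegree_C, totalDegree_X]

end example_

universe u

/-- **Test ideals do not restrict to general hyperplane sections.** Let `k` be an algebraically
closed field of characteristic `p > 0`. There is a form `F ≠ 0` of degree `d ≥ 1` in `x_0, …, x_3`
such that the following holds for all rational numbers `c` with `1/p ≤ c < 1/p + 1/(p d)`, for
example for `c = 1/p`. Let `X = P^3` and `Δ = c · div(F)`, and let `τ` be the test ideal of the pair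
`(X, Δ)` on the chart `x_0 ≠ 0`. Let `H` be any plane `∑ a_j x_j = 0` with `a_1 ≠ 0`. Then `F` is not
zero on `H`, and the test ideal `τ'` of the pair `(H, Δ|_H)` on the chart `x_0 ≠ 0` is not the
restriction of `τ` to `H`. -/
theorem result (p : ℕ) [Fact p.Prime] (k : Type u) [Field k] [IsAlgClosed k] [CharP k p] :
    ∃ (d : ℕ) (F : MvPolynomial (Fin 4) k), 0 < d ∧ F ≠ 0 ∧ F.IsHomogeneous d ∧
      ∀ c : ℚ, 1 / (p : ℚ) ≤ c → c < 1 / p + 1 / (p * d) →
        ∃ τ : Ideal (ChartX k 0), IsTestIdeal p c (Ideal.Quotient.mk _ F) τ ∧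
          ∀ a : Fin 4 → k, a 1 ≠ 0 → (Ideal.Quotient.mk _ F : ChartH k a 0) ≠ 0 ∧
            ∃ τ' : Ideal (ChartH k a 0), IsTestIdeal p c (Ideal.Quotient.mk _ F) τ' ∧
              τ.map (restrict k a 0) ≠ τ' := by
  have hp : p.Prime := Fact.out
  have hp1 := hp.one_lt
  have : PerfectRing k p := inferInstance
  have hd : 0 < 2 * (p - 1) + p ^ 2 * p := by omega
  have hN : 0 < p ^ 2 := pow_pos hp.pos 2
  have hhom := formF_hom k p hp1
  -- the space
  have hX : ∀ c : ℚ, 1 / (p : ℚ) ≤ c → c < 1 / p + 1 / (p * (2 * (p - 1) + p ^ 2 * p : ℕ)) →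
      αX k (formF k p) ≠ 0 ∧
      IsTestIdeal p c (αX k (formF k p)) (Ideal.span (genX k p '' (Finset.range (p ^ 2 + 1)))) := by
    intro c hc hc2
    refine poly_testIdeal hp hc (Finset.range (p ^ 2 + 1)) (mX p) ?_ ?_ (genX k p)
      (αX_formF k p) ⟨0, by simp, by simp [genX]⟩ hd ?_ hc2
    · intro i hi j hj hij
      rw [Finset.mem_range] at hi hj
      rw [mX, mX] at hij
      split_ifs at hij with h1 h2 h2
      · exact ex_inj (by decide) hij
      · have := DFunLike.congr_fun hij 0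
        simp [ex] at this
      · have := DFunLike.congr_fun hij 0
        simp [ex] at this
      · omega
    · intro i hi t
      rw [mX]
      split_ifs with h1
      · exact ex_lt (by decide) hp.pos h1 t
      · rw [Finsupp.single_apply]
        split_ifs <;> omega
    · refine (totalDegree_aeval_le k _ ?_ _).trans hhom.totalDegree_le
      intro i
      fin_cases i <;> simp
  refine ⟨2 * (p - 1) + p ^ 2 * p, formF k p, hd, ?_, hhom, ?_⟩
  · intro h0
    have h1 := (hX (1 / p) le_rfl (by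
      have h2 : (0 : ℚ) < p := by exact_mod_cast hp.pos
      have h3 : (0 : ℚ) < (2 * (p - 1) + p ^ 2 * p : ℕ) := by exact_mod_cast hd
      have h4 : (0 : ℚ) < 1 / (p * (2 * (p - 1) + p ^ 2 * p : ℕ)) := by positivity
      linarith)).1
    rw [h0, map_zero] at h1
    exact h1 rfl
  intro c hc hc2
  have hX1 := (hX c hc hc2).2.map_equiv (equivX k).symm.toRingEquiv
  have hX2 : (equivX k).symm.toRingEquiv (αX k (formF k p)) = Ideal.Quotient.mk _ (formF k p) := by
    have : αX k (formF k p) = equivX k (Ideal.Quotient.mk _ (formF k p)) := rfl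
    rw [this]
    exact (equivX k).symm_apply_apply _
  rw [hX2] at hX1
  refine ⟨_, hX1, ?_⟩
  intro a ha
  -- the plane
  have hg0 : genH k p a 0 ≠ 0 := by
    intro h0
    classical
    have h2 : coeff (bi (p ^ 2) 0) (genH k p a 0) = 1 := by
      have h3 : (X 1 ^ p ^ 2 : MvPolynomial (Fin 2) k) = monomial (bi (p ^ 2) (p ^ 2)) 1 := by
        rw [← X_bi]
        simp
      rw [genH, X_bi, h3, coeff_add, coeff_C_mul, coeff_monomial, coeff_monomial, if_pos rfl,
        if_neg]
      · ring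
      · intro h4
        have := bi_inj h4
        omega
    rw [h0, coeff_zero] at h2
    exact zero_ne_one h2
  have hdH : (αH k a (formF k p)).totalDegree ≤ 2 * (p - 1) + p ^ 2 * p := by
    refine (totalDegree_aeval_le k _ ?_ _).trans hhom.totalDegree_le
    intro i
    fin_cases i
    · simp
    · exact totalDegree_ell k a
    · simp
    · simp
  obtain ⟨hH0, hH1⟩ := poly_testIdeal hp hc (Finset.range (p ^ 2)) (ex 0 1 p)
    (fun i _ j _ hij => ex_inj (by decide) hij)
    (fun i hi t => ex_lt (by decide) hp.pos (Finset.mem_range.1 hi) t) (genH k p a)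
    (αH_formF k p hp a) ⟨0, Finset.mem_range.2 hN, hg0⟩ hd hdH hc2
  have hH2 := hH1.map_equiv (equivH k a ha).symm.toRingEquiv
  have hH3 : (equivH k a ha).symm.toRingEquiv (αH k a (formF k p))
      = Ideal.Quotient.mk _ (formF k p) := by
    have : αH k a (formF k p) = equivH k a ha (Ideal.Quotient.mk _ (formF k p)) := rfl
    rw [this]
    exact (equivH k a ha).symm_apply_apply _
  rw [hH3] at hH2
  refine ⟨?_, _, hH2, ?_⟩
  · intro h0
    apply hH0
    have : αH k a (formF k p) = equivH k a ha (Ideal.Quotient.mk _ (formF k p)) := rfl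
    rw [this, h0, map_zero]
  · intro heq
    -- the element `z ^ N`
    have h1 : (X 2 ^ p ^ 2 : MvPolynomial (Fin 3) k) ∈
        Ideal.span (genX k p '' (Finset.range (p ^ 2 + 1))) := by
      apply Ideal.subset_span
      refine ⟨p ^ 2, by simp, ?_⟩
      simp [genX]
    have h2 : (Ideal.Quotient.mk _ (X 3 ^ p ^ 2) : ChartX k 0) ∈
        (Ideal.span (genX k p '' (Finset.range (p ^ 2 + 1)))).map
          ((equivX k).symm.toRingEquiv : MvPolynomial (Fin 3) k →+* ChartX k 0) := by
      have h3 : (Ideal.Quotient.mk _ (X 3 ^ p ^ 2) : ChartX k 0)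
          = (equivX k).symm.toRingEquiv (X 2 ^ p ^ 2) := by
        have : (X 2 ^ p ^ 2 : MvPolynomial (Fin 3) k)
            = equivX k (Ideal.Quotient.mk _ (X 3 ^ p ^ 2)) := by
          show _ = αX k (X 3 ^ p ^ 2)
          simp [αX]
        rw [this]
        exact ((equivX k).symm_apply_apply _).symm
      rw [h3]
      exact Ideal.mem_map_of_mem _ h1
    have h3 := Ideal.mem_map_of_mem (restrict k a 0) h2
    rw [heq] at h3
    have h4 : restrict k a 0 (Ideal.Quotient.mk _ (X 3 ^ p ^ 2)) = Ideal.Quotient.mk _ (X 3 ^ p ^ 2) :=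
      rfl
    rw [h4] at h3
    obtain ⟨y, hy, hyx⟩ := (Ideal.mem_map_of_equiv (equivH k a ha).symm.toRingEquiv _).1 h3
    have h5 : y = X 1 ^ p ^ 2 := by
      have h6 : equivH k a ha ((equivH k a ha).symm.toRingEquiv y)
          = αH k a (X 3 ^ p ^ 2) := by
        rw [hyx]
        rfl
      have h7 : equivH k a ha ((equivH k a ha).symm.toRingEquiv y) = y :=
        (equivH k a ha).apply_symm_apply y
      rw [← h7, h6]
      simp [αH]
    rw [h5] at hy
    refine z_notMem k (p ^ 2) (cf k p a) ?_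
    have h6 : Ideal.span (genH k p a '' (Finset.range (p ^ 2))) ≤ idealQ k (p ^ 2) (cf k p a) := by
      rw [Ideal.span_le]
      rintro _ ⟨i, hi, rfl⟩
      exact gen_mem k _ _ (by simpa using hi)
    exact h6 hy

end Pool.Agent.H94.TestIdeals.GeneralPlanes
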